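import Mathlib
import Pool.Agent.H20.Wild

/-!
# The complexes of partial bases with complements and vector coefficients are not highly acyclic
for every ring

We exhibit a ring `R` for which, for every `n ≥ 2`, the augmented complex
`⋯ → ⨁_{(v₀,v₁,C)} C → ⨁_{(v₀,C)} C → R^n → 0` has non-zero homology in degree `0`; this holds both
if all partial bases with complements are used, and if only those in the `GL_n(R)`-orbit of the
standard ones are used (so that the groups are `R GL_n(R) ⊗_{R GL_{n-(p+1)}(R)} R^{n-(p+1)}`).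
-/

namespace Pool.Agent.Results.MP_356f69_al.NotHighlyAcyclic

/-! ### Definitions -/

/-- A partial basis with complement of size `q` (that is, of degree `p = q - 1`) in the left
`R`-module `R^n`: vectors `v₀, …, v_{q-1}` (with `q ≤ n`) which form a basis of the submodule they
span, together with a submodule `C` such that `R^n = span(v₀, …, v_{q-1}) ⊕ C`. -/
@[ext] structure PBC (R : Type) [Ring R] (n q : ℕ) where
  /-- the vectors -/
  vec : Fin q → (Fin n → R)
  /-- the complement -/
  compl : Submodule R (Fin n → R)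
  size_le : q ≤ n
  linearIndependent : LinearIndependent R vec
  isCompl : IsCompl (Submodule.span R (Set.range vec)) compl

variable {R : Type} [Ring R] {n q : ℕ}

/-- The `i`-th face of `(v₀, …, v_q, C)`: the vector `v_i` is moved into the complement, giving
`(v₀, …, v̂_i, …, v_q, C ⊕ R v_i)`. -/
def PBC.face (σ : PBC R n (q + 1)) (i : Fin (q + 1)) : PBC R n q where
  vec := σ.vec ∘ i.succAbove
  compl := σ.compl ⊔ Submodule.span R {σ.vec i}
  size_le := (Nat.le_succ q).trans σ.size_le
  linearIndependent := σ.linearIndependent.comp _ Fin.succAbove_right_injective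
  isCompl := by
    have hrange : Set.range σ.vec = Set.range (σ.vec ∘ i.succAbove) ∪ {σ.vec i} := by
      ext x
      constructor
      · rintro ⟨j, rfl⟩
        rcases Fin.eq_self_or_eq_succAbove i j with h | ⟨j', rfl⟩
        · right; rw [h]; rfl
        · left; exact ⟨j', rfl⟩
      · rintro (⟨j, rfl⟩ | h)
        · exact ⟨_, rfl⟩
        · exact ⟨i, h.symm⟩
    have hspan : Submodule.span R (Set.range σ.vec) =
        Submodule.span R (Set.range (σ.vec ∘ i.succAbove)) ⊔ Submodule.span R {σ.vec i} := by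
      rw [hrange, Submodule.span_union]
    have hdisj : Disjoint (Submodule.span R (Set.range (σ.vec ∘ i.succAbove)))
        (Submodule.span R {σ.vec i}) := by
      have h1 := σ.linearIndependent.disjoint_span_image
        (s := Set.range i.succAbove) (t := {i}) (by
          rw [Set.disjoint_singleton_right]
          rintro ⟨j, hj⟩
          exact Fin.succAbove_ne i j hj)
      rw [Set.image_singleton] at h1
      rwa [Set.range_comp]
    have hc := σ.isCompl
    rw [hspan] at hc
    constructor
    · rw [Submodule.disjoint_def]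
      intro x hx hx2
      obtain ⟨c, hc1, y, hy, rfl⟩ := Submodule.mem_sup.mp hx2
      have hc0 : c = 0 := by
        have := Submodule.disjoint_def.mp hc.disjoint c ?_ hc1
        · exact this
        · have h3 : c = (c + y) - y := by abel
          rw [h3]
          exact Submodule.sub_mem _ (Submodule.mem_sup_left hx) (Submodule.mem_sup_right hy)
      subst hc0
      rw [zero_add] at hx ⊢
      exact Submodule.disjoint_def.mp hdisj y hx hy
    · rw [codisjoint_iff, eq_top_iff]
      intro x _
      have hx : x ∈ (Submodule.span R (Set.range (σ.vec ∘ i.succAbove)) ⊔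
          Submodule.span R {σ.vec i}) ⊔ σ.compl := by
        rw [hc.sup_eq_top]; trivial
      rw [sup_assoc] at hx
      rwa [sup_comm σ.compl]

/-- The boundary map, on all formal sums `∑ (σ, w)` with `w ∈ R^n`:
`∂(σ, w) = ∑ᵢ (-1)^i (dᵢ σ, w)`. -/
noncomputable def bdry (R : Type) [Ring R] (n q : ℕ) :
    (PBC R n (q + 1) →₀ (Fin n → R)) →+ (PBC R n q →₀ (Fin n → R)) :=
  ∑ i : Fin (q + 1), ((-1 : ℤ) ^ (i : ℕ)) • Finsupp.mapDomain.addMonoidHom (fun σ => σ.face i)

/-- `P` selects a class of partial bases with complements. The formal sum `x = ∑_σ (σ, x σ)` is a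
chain if each `w = x σ` lies in the complement of `σ` and only `σ` in the class `P` occur. The
chains form the group `⨁_{σ ∈ P} C_σ`. -/
def IsChain (P : ∀ q, PBC R n q → Prop) (x : PBC R n q →₀ (Fin n → R)) : Prop :=
  ∀ σ, x σ ∈ σ.compl ∧ (x σ ≠ 0 → P q σ)

/-- Vanishing of the homology in degree `q - 1` of the augmented complex of chains (the chains of
size `q` sit in degree `q - 1`; in degree `-1` the group is `R^n`). -/
def HomologyVanishes (P : ∀ q, PBC R n q → Prop) : ℕ → Prop
  | 0 => ∀ x : PBC R n 0 →₀ (Fin n → R), IsChain P x →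
      ∃ y : PBC R n 1 →₀ (Fin n → R), IsChain P y ∧ bdry R n 0 y = x
  | q + 1 => ∀ x : PBC R n (q + 1) →₀ (Fin n → R), IsChain P x → bdry R n q x = 0 →
      ∃ y : PBC R n (q + 2) →₀ (Fin n → R), IsChain P y ∧ bdry R n (q + 1) y = x

/-- All partial bases with complements. -/
def AllPBC (R : Type) [Ring R] (n q : ℕ) : PBC R n q → Prop := fun _ => True

/-- The partial bases with complements in the orbit of the standard one
`(e₁, …, e_q, span(e_{q+1}, …, e_n))` under the group `GL_n(R)` of automorphisms of `R^n`. -/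
def OrbitPBC (R : Type) [Ring R] (n q : ℕ) : PBC R n q → Prop := fun σ =>
  ∃ g : (Fin n → R) ≃ₗ[R] (Fin n → R),
    (∀ i : Fin q, g (Pi.single (Fin.castLE σ.size_le i) 1) = σ.vec i) ∧
    (Submodule.span R {v | ∃ j : Fin n, q ≤ (j : ℕ) ∧ v = Pi.single j 1}).map
      (g : (Fin n → R) →ₗ[R] (Fin n → R)) = σ.compl

/-- High acyclicity over `R`: there is `f` with `f(n) → ∞` such that for every `n ≥ 1` the homology
vanishes in all degrees `p = q - 1 ≤ f(n)`. -/
def HighlyAcyclic (R : Type) [Ring R] (P : ∀ n q, PBC R n q → Prop) : Prop :=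
  ∃ f : ℕ → ℤ, Filter.Tendsto f Filter.atTop Filter.atTop ∧
    ∀ n, 1 ≤ n → ∀ q : ℕ, (q : ℤ) - 1 ≤ f n → HomologyVanishes (P n) q

/-! ### The boundary in low degrees -/

lemma bdry_single_one (σ : PBC R n 1) (w : Fin n → R) :
    bdry R n 0 (Finsupp.single σ w) = Finsupp.single (σ.face 0) w := by
  simp [bdry, Finsupp.mapDomain.addMonoidHom]

lemma bdry_single_two (σ : PBC R n 2) (w : Fin n → R) :
    bdry R n 1 (Finsupp.single σ w) =
      Finsupp.single (σ.face 0) w - Finsupp.single (σ.face 1) w := by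
  simp [bdry, Finsupp.mapDomain.addMonoidHom, Fin.sum_univ_two, sub_eq_add_neg]

lemma pbc_zero_eq (σ τ : PBC R n 0) : σ = τ := by
  have h : ∀ σ : PBC R n 0, σ.compl = ⊤ := by
    intro σ
    have h1 : Submodule.span R (Set.range σ.vec) = ⊥ := by
      rw [Set.range_eq_empty, Submodule.span_empty]
    have h2 := σ.isCompl
    rw [h1] at h2
    exact eq_top_of_bot_isCompl h2
  ext x
  · exact Fin.elim0 (by assumption)
  · rw [h σ, h τ]

/-! ### The abstract criterion -/

/-- `λ` for a vertex. -/
lemma exists_functional (σ : PBC R n 1) :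
    ∃ lam : (Fin n → R) →ₗ[R] R, lam (σ.vec 0) = 1 ∧ ∀ w ∈ σ.compl, lam w = 0 := by
  set B := Module.Basis.span σ.linearIndependent with hB
  refine ⟨(B.coord 0) ∘ₗ (Submodule.projectionOnto _ _ σ.isCompl), ?_, ?_⟩
  · have h1 : σ.vec 0 = ((B 0 : Submodule.span R (Set.range σ.vec)) : Fin n → R) := by
      rw [hB, Module.Basis.span_apply]
    rw [LinearMap.comp_apply, h1, Submodule.projectionOnto_apply_left]
    simp
  · intro w hw
    rw [LinearMap.comp_apply, Submodule.projectionOnto_apply_eq_zero_iff _ |>.mpr hw, map_zero]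

section criterion

variable (T S : Fin n → R) (hTS : ∀ i j, T i * S j = if i = j then 1 else 0)
  (hST : ∑ i, S i * T i = 1)

/-- the isomorphism `R^n → R` given by `T` -/
def phi (T : Fin n → R) : (Fin n → R) →ₗ[R] R where
  toFun w := ∑ i, w i * T i
  map_add' x y := by simp [add_mul, Finset.sum_add_distrib]
  map_smul' r x := by simp [Finset.mul_sum, mul_assoc]

lemma phi_apply (T : Fin n → R) (w : Fin n → R) : phi T w = ∑ i, w i * T i := rfl

lemma phi_single (T : Fin n → R) (i : Fin n) : phi T (Pi.single i 1) = T i := by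
  rw [phi_apply, Finset.sum_eq_single i]
  · simp
  · intro j _ hj; simp [hj]
  · intro h; exact absurd (Finset.mem_univ _) h

/-- the inverse isomorphism -/
def phiInv (S : Fin n → R) : R →ₗ[R] (Fin n → R) where
  toFun r := fun i => r * S i
  map_add' x y := by ext i; simp [add_mul]
  map_smul' r x := by ext i; simp [mul_assoc]

include hTS in
lemma phiInv_phi (w : Fin n → R) : phiInv S (phi T w) = w := by
  ext j
  show (∑ i, w i * T i) * S j = w j
  rw [Finset.sum_mul, Finset.sum_eq_single j]
  · rw [mul_assoc, hTS, if_pos rfl, mul_one]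
  · intro i _ hi; rw [mul_assoc, hTS, if_neg hi, mul_zero]
  · intro h; exact absurd (Finset.mem_univ _) h

include hST in
lemma phi_phiInv (r : R) : phi T (phiInv S r) = r := by
  show (∑ i, (r * S i) * T i) = r
  simp_rw [mul_assoc]
  rw [← Finset.mul_sum, hST, mul_one]

/-- the `R`-linear automorphism of `R^n` corresponding to right multiplication by a unit `u'` with
inverse `u`. -/
def psi (u u' : R) (huu' : u * u' = 1) (hu'u : u' * u = 1) :
    (Fin n → R) ≃ₗ[R] (Fin n → R) where
  toFun w := phiInv S (phi T w * u')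
  map_add' x y := by rw [map_add, add_mul, map_add]
  map_smul' r x := by
    rw [map_smul, smul_eq_mul, mul_assoc, ← smul_eq_mul, map_smul]; rfl
  invFun w := phiInv S (phi T w * u)
  left_inv w := by
    show phiInv S (phi T (phiInv S (phi T w * u')) * u) = w
    rw [phi_phiInv T S hST, mul_assoc, hu'u, mul_one, phiInv_phi T S hTS]
  right_inv w := by
    show phiInv S (phi T (phiInv S (phi T w * u)) * u') = w
    rw [phi_phiInv T S hST, mul_assoc, huu', mul_one, phiInv_phi T S hTS]

variable (P Q : R → Prop)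

/-- the invariant of a vertex -/
def Typ (σ : PBC R n 1) : Prop :=
  P (phi T (σ.vec 0)) ∧ ∃ q, Q q ∧ phi T (σ.vec 0) * q = 1 ∧ ∀ w ∈ σ.compl, phi T w * q = 0

include hTS in
lemma exists_q (σ : PBC R n 1) :
    ∃ q, phi T (σ.vec 0) * q = 1 ∧ ∀ w ∈ σ.compl, phi T w * q = 0 := by
  obtain ⟨lam, h1, h2⟩ := exists_functional σ
  have key : ∀ w, phi T w * (∑ j, S j * lam (Pi.single j 1)) = lam w := by
    intro w
    rw [phi_apply, Finset.sum_mul]
    have h3 : ∀ i ∈ Finset.univ, w i * T i * ∑ j, S j * lam (Pi.single j 1) =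
        w i * lam (Pi.single i 1) := by
      intro i _
      rw [mul_assoc, Finset.mul_sum]
      congr 1
      rw [Finset.sum_eq_single i]
      · rw [← mul_assoc, hTS, if_pos rfl, one_mul]
      · intro j _ hj; rw [← mul_assoc, hTS, if_neg hj.symm, zero_mul]
      · intro h; exact absurd (Finset.mem_univ _) h
    rw [Finset.sum_congr rfl h3]
    have h4 : w = ∑ i, w i • (Pi.single i 1 : Fin n → R) := by
      ext j
      rw [Finset.sum_apply, Finset.sum_eq_single j]
      · simp
      · intro i _ hi; simp [hi.symm]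
      · intro h; exact absurd (Finset.mem_univ _) h
    conv_rhs => rw [h4]
    rw [map_sum]
    apply Finset.sum_congr rfl
    intro i _
    rw [map_smul, smul_eq_mul]
  exact ⟨_, by rw [key, h1], fun w hw => by rw [key, h2 w hw]⟩

variable (h1 : ∀ p q, P p → q ≠ 0 → p * q = 0 → Q q) (h2 : ∀ p q, Q q → p ≠ 0 → p * q = 0 → P p)

include hTS h1 h2 in
lemma typ_transfer [Nontrivial R] (σ σ' : PBC R n 1) (hσ : σ.vec 0 ∈ σ'.compl)
    (hσ' : σ'.vec 0 ∈ σ.compl) (h : Typ T P Q σ) : Typ T P Q σ' := by
  obtain ⟨hP, q, hQ, hq1, hq0⟩ := h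
  obtain ⟨q', hq1', hq0'⟩ := exists_q T S hTS σ'
  have hne : phi T (σ'.vec 0) ≠ 0 := by
    intro h0; rw [h0, zero_mul] at hq1'; exact zero_ne_one hq1'
  have hne' : q' ≠ 0 := by
    intro h0; rw [h0, mul_zero] at hq1'; exact zero_ne_one hq1'
  exact ⟨h2 _ q hQ hne (hq0 _ hσ'), q', h1 _ _ hP hne' (hq0' _ hσ), hq1', hq0'⟩

open scoped Classical in
/-- the sum of the values on the vertices of the given type -/
noncomputable def Phi : (PBC R n 1 →₀ (Fin n → R)) →+ (Fin n → R) :=
  Finsupp.liftAddHom (fun σ => if Typ T P Q σ then AddMonoidHom.id _ else 0)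

open scoped Classical in
lemma Phi_single (σ : PBC R n 1) (w : Fin n → R) :
    Phi T P Q (Finsupp.single σ w) = if Typ T P Q σ then w else 0 := by
  unfold Phi
  rw [Finsupp.liftAddHom_apply_single]
  split_ifs <;> rfl

include hTS h1 h2 in
lemma Phi_bdry [Nontrivial R] (y : PBC R n 2 →₀ (Fin n → R)) : Phi T P Q (bdry R n 1 y) = 0 := by
  classical
  induction y using Finsupp.induction_linear with
  | zero => simp
  | add f g hf hg => rw [map_add, map_add, hf, hg, add_zero]
  | single τ w =>
    rw [bdry_single_two, map_sub, Phi_single, Phi_single]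
    have e0 : (τ.face 0).vec 0 = τ.vec 1 := rfl
    have e1 : (τ.face 1).vec 0 = τ.vec 0 := rfl
    have m0 : (τ.face 0).vec 0 ∈ (τ.face 1).compl := by
      rw [e0]
      exact Submodule.mem_sup_right (Submodule.mem_span_singleton_self _)
    have m1 : (τ.face 1).vec 0 ∈ (τ.face 0).compl := by
      rw [e1]
      exact Submodule.mem_sup_right (Submodule.mem_span_singleton_self _)
    have hiff : Typ T P Q (τ.face 0) ↔ Typ T P Q (τ.face 1) :=
      ⟨typ_transfer T S hTS P Q h1 h2 _ _ m0 m1, typ_transfer T S hTS P Q h1 h2 _ _ m1 m0⟩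
    by_cases h : Typ T P Q (τ.face 0)
    · rw [if_pos h, if_pos (hiff.mp h), sub_self]
    · rw [if_neg h, if_neg (fun h' => h (hiff.mpr h')), sub_self]

end criterion

/-! ### Vertices in the orbit of the standard one -/

/-- the standard complement -/
def C0 (R : Type) [Ring R] (n : ℕ) : Submodule R (Fin n → R) :=
  Submodule.span R {v | ∃ j : Fin n, 1 ≤ (j : ℕ) ∧ v = Pi.single j 1}

lemma mem_C0 {n : ℕ} (hn : 1 ≤ n) (w : Fin n → R) (hw : w ⟨0, hn⟩ = 0) : w ∈ C0 R n := by
  have h4 : w = ∑ i, w i • (Pi.single i 1 : Fin n → R) := by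
    ext j
    rw [Finset.sum_apply, Finset.sum_eq_single j]
    · simp
    · intro i _ hi; simp [hi.symm]
    · intro h; exact absurd (Finset.mem_univ _) h
  rw [h4]
  apply Submodule.sum_mem
  intro i _
  by_cases hi : 1 ≤ (i : ℕ)
  · exact Submodule.smul_mem _ _ (Submodule.subset_span ⟨i, hi, rfl⟩)
  · have : i = ⟨0, hn⟩ := by ext; simp; omega
    rw [this, hw, zero_smul]; exact Submodule.zero_mem _

lemma C0_apply {n : ℕ} (hn : 1 ≤ n) (w : Fin n → R) (hw : w ∈ C0 R n) : w ⟨0, hn⟩ = 0 := by
  have : C0 R n ≤ LinearMap.ker (LinearMap.proj (R := R) (φ := fun _ : Fin n => R) ⟨0, hn⟩) := by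
    unfold C0
    rw [Submodule.span_le]
    rintro _ ⟨j, hj, rfl⟩
    have : (⟨0, hn⟩ : Fin n) ≠ j := by
      intro h; rw [← h] at hj; simp at hj
    simp [this]
  exact this hw

/-- the vertex `g · (e₁, span(e₂, …, e_n))` -/
def vertex {n : ℕ} (hn : 1 ≤ n) (g : (Fin n → R) ≃ₗ[R] (Fin n → R)) : PBC R n 1 where
  vec := fun _ => g (Pi.single ⟨0, hn⟩ 1)
  compl := (C0 R n).map (g : (Fin n → R) →ₗ[R] (Fin n → R))
  size_le := hn
  linearIndependent := by
    rw [linearIndependent_iff_injective_finsuppLinearCombination]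
    rw [injective_iff_map_eq_zero]
    intro c hc
    rw [Finsupp.linearCombination_unique] at hc
    have h1 : g (c default • (Pi.single ⟨0, hn⟩ 1 : Fin n → R)) = 0 := by
      rw [map_smul]; exact hc
    rw [map_eq_zero_iff g g.injective] at h1
    have h2 := congrFun h1 ⟨0, hn⟩
    simp at h2
    apply Finsupp.ext
    intro i
    rw [Subsingleton.elim i 0]
    exact h2
  isCompl := by
    rw [Set.range_const]
    have himg : Submodule.span R {g (Pi.single ⟨0, hn⟩ 1)} =
        (Submodule.span R {(Pi.single ⟨0, hn⟩ 1 : Fin n → R)}).map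
          (g : (Fin n → R) →ₗ[R] (Fin n → R)) := by
      rw [Submodule.map_span, Set.image_singleton]; rfl
    rw [himg]
    constructor
    · rw [Submodule.disjoint_def]
      rintro _ ⟨x, hx, rfl⟩ ⟨y, hy, hxy⟩
      have hxy' : y = x := g.injective hxy
      subst hxy'
      obtain ⟨r, rfl⟩ := Submodule.mem_span_singleton.mp hx
      have := C0_apply hn _ hy
      simp at this
      simp [this]
    · rw [codisjoint_iff, eq_top_iff]
      intro x _
      obtain ⟨y, rfl⟩ := g.surjective x
      have hy : y = y ⟨0, hn⟩ • (Pi.single ⟨0, hn⟩ 1 : Fin n → R) +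
          (y - y ⟨0, hn⟩ • (Pi.single ⟨0, hn⟩ 1 : Fin n → R)) := by abel
      rw [hy, map_add]
      apply Submodule.add_mem_sup
      · exact Submodule.mem_map_of_mem (Submodule.smul_mem _ _ (Submodule.mem_span_singleton_self _))
      · apply Submodule.mem_map_of_mem
        apply mem_C0 hn
        simp

lemma vertex_orbit {n : ℕ} (hn : 1 ≤ n) (g : (Fin n → R) ≃ₗ[R] (Fin n → R)) :
    OrbitPBC R n 1 (vertex hn g) := by
  refine ⟨g, ?_, rfl⟩
  intro i
  have : Fin.castLE (vertex hn g).size_le i = ⟨0, hn⟩ := by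
    ext; simp
  rw [this]; rfl

/-- the coordinate swap -/
def swapEquiv (n : ℕ) (i j : Fin n) : (Fin n → R) ≃ₗ[R] (Fin n → R) :=
  LinearEquiv.funCongrLeft R R (Equiv.swap i j)

lemma swapEquiv_apply (i j : Fin n) (w : Fin n → R) (l : Fin n) :
    swapEquiv (R := R) n i j w l = w (Equiv.swap i j l) := rfl

lemma isChain_single (P : ∀ q, PBC R n q → Prop) (σ : PBC R n q) (w : Fin n → R) (hP : P q σ)
    (hw : w ∈ σ.compl) : IsChain P (Finsupp.single σ w) := by
  classical
  intro τ
  rw [Finsupp.single_apply]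
  split_ifs with h
  · subst h; exact ⟨hw, fun _ => hP⟩
  · exact ⟨Submodule.zero_mem _, fun h => absurd rfl h⟩

lemma isChain_sub (P : ∀ q, PBC R n q → Prop) (x y : PBC R n q →₀ (Fin n → R))
    (hx : IsChain P x) (hy : IsChain P y) : IsChain P (x - y) := by
  intro τ
  refine ⟨Submodule.sub_mem _ (hx τ).1 (hy τ).1, ?_⟩
  intro h
  by_cases h0 : x τ = 0
  · apply (hy τ).2
    intro h1
    apply h
    rw [Finsupp.sub_apply, h0, h1, sub_zero]
  · exact (hx τ).2 h0

/-- The abstract criterion. -/
theorem criterion [Nontrivial R] (hn : 2 ≤ n) (T S : Fin n → R)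
    (hTS : ∀ i j, T i * S j = if i = j then 1 else 0) (hST : ∑ i, S i * T i = 1)
    (P Q : R → Prop) (h1 : ∀ p q, P p → q ≠ 0 → p * q = 0 → Q q)
    (h2 : ∀ p q, Q q → p ≠ 0 → p * q = 0 → P p) (u u' : R) (huu' : u * u' = 1)
    (hu'u : u' * u = 1) (hP : P (T ⟨0, by omega⟩ * u')) (hQ : Q (u * S ⟨0, by omega⟩))
    (hPT : ∀ i, ¬ P (T i)) (P' : ∀ q, PBC R n q → Prop)
    (hP' : ∀ g, P' 1 (vertex (by omega) g)) : ¬ HomologyVanishes P' 1 := by
  classical
  intro H
  have hn1 : 1 ≤ n := by omega
  set i0 : Fin n := ⟨0, by omega⟩ with hi0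
  set i1 : Fin n := ⟨1, by omega⟩ with hi1
  have h01 : i0 ≠ i1 := by intro h; simp [hi0, hi1] at h
  set Ψ := psi T S hTS hST u u' huu' hu'u with hΨ
  have hphiΨ : ∀ w, phi T (Ψ w) = phi T w * u' := fun w => phi_phiInv T S hST _
  set σB : PBC R n 1 := vertex hn1 Ψ with hσB
  set σ0 : PBC R n 1 := vertex hn1 (LinearEquiv.refl R _) with hσ0
  set σ1 : PBC R n 1 := vertex hn1 (swapEquiv n i0 i1) with hσ1
  set wB : Fin n → R := Ψ (Pi.single i1 1) with hwB
  set w' : Fin n → R := wB i0 • (Pi.single i0 1 : Fin n → R) with hw'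
  set w'' : Fin n → R := wB - w' with hw''
  have mB : wB ∈ σB.compl := by
    apply Submodule.mem_map_of_mem
    apply mem_C0 hn1
    show (Pi.single i1 1 : Fin n → R) i0 = 0
    simp [h01]
  have m0 : w'' ∈ σ0.compl := by
    refine ⟨w'', ?_, rfl⟩
    apply mem_C0 hn1
    show wB i0 - (wB i0 • (Pi.single i0 1 : Fin n → R)) i0 = 0
    simp
  have m1 : w' ∈ σ1.compl := by
    refine ⟨wB i0 • (Pi.single i1 1 : Fin n → R), ?_, ?_⟩
    · apply mem_C0 hn1
      show (wB i0 • (Pi.single i1 1 : Fin n → R)) i0 = 0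
      simp [h01]
    · ext l
      show (wB i0 • (Pi.single i1 1 : Fin n → R)) (Equiv.swap i0 i1 l) = w' l
      rw [hw']
      simp only [Pi.smul_apply, smul_eq_mul, Pi.single_apply]
      congr 1
      by_cases hl : l = i0
      · subst hl; simp
      · rw [if_neg hl, if_neg]
        intro h
        apply hl
        have := congrArg (Equiv.swap i0 i1) h
        simpa using this
  set x : PBC R n 1 →₀ (Fin n → R) :=
    Finsupp.single σB wB - Finsupp.single σ1 w' - Finsupp.single σ0 w'' with hx
  have hxc : IsChain P' x :=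
    isChain_sub P' _ _ (isChain_sub P' _ _ (isChain_single P' _ _ (hP' _) mB)
      (isChain_single P' _ _ (hP' _) m1)) (isChain_single P' _ _ (hP' _) m0)
  have hx0 : bdry R n 0 x = 0 := by
    rw [hx, map_sub, map_sub, bdry_single_one, bdry_single_one, bdry_single_one,
      pbc_zero_eq (σ1.face 0) (σB.face 0), pbc_zero_eq (σ0.face 0) (σB.face 0),
      ← Finsupp.single_sub, ← Finsupp.single_sub]
    rw [hw'']
    simp
  obtain ⟨y, -, hy⟩ := H x hxc hx0
  have hΦ := Phi_bdry T S hTS P Q h1 h2 y
  rw [hy, hx, map_sub, map_sub, Phi_single, Phi_single, Phi_single] at hΦ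
  have tB : Typ T P Q σB := by
    have hv : phi T (σB.vec 0) = T i0 * u' := by
      show phi T (Ψ (Pi.single i0 1)) = _
      rw [hphiΨ, phi_single]
    refine ⟨?_, u * S i0, hQ, ?_, ?_⟩
    · rw [hv]; exact hP
    · rw [hv, mul_assoc, ← mul_assoc u', hu'u, one_mul, hTS, if_pos rfl]
    · rintro _ ⟨c, hc, rfl⟩
      show phi T (Ψ c) * _ = 0
      rw [hphiΨ, mul_assoc, ← mul_assoc u', hu'u, one_mul]
      have h3 := congrFun (phiInv_phi T S hTS c) i0
      have h4 : phi T c * S i0 = c i0 := h3
      rw [h4]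
      exact C0_apply hn1 c hc
  have t0 : ¬ Typ T P Q σ0 := by
    intro h
    have hv : phi T (σ0.vec 0) = T i0 := by
      show phi T (Pi.single i0 1) = _
      rw [phi_single]
    have := h.1
    rw [hv] at this
    exact hPT _ this
  have t1 : ¬ Typ T P Q σ1 := by
    intro h
    have hv : phi T (σ1.vec 0) = T i1 := by
      have : σ1.vec 0 = Pi.single i1 1 := by
        ext l
        show (Pi.single i0 1 : Fin n → R) (Equiv.swap i0 i1 l) = _
        simp only [Pi.single_apply]
        by_cases hl : l = i1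
        · subst hl; simp
        · rw [if_neg hl, if_neg]
          intro h
          apply hl
          have := congrArg (Equiv.swap i0 i1) h
          simpa using this
      rw [this, phi_single]
    have := h.1
    rw [hv] at this
    exact hPT _ this
  rw [if_pos tB, if_neg t1, if_neg t0, sub_zero, sub_zero] at hΦ
  have h5 : (Pi.single i1 1 : Fin n → R) = 0 := by
    apply Ψ.injective
    rw [map_zero]; exact hΦ
  have h6 := congrFun h5 i1
  simp at h6

/-! ### The ring -/

/-- the algebra of all endomorphisms of the space of rational sequences -/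
abbrev A : Type := Module.End ℚ (ℕ → ℚ)

/-- the isometries -/
def Sop (n : ℕ) [NeZero n] (i : Fin n) : A where
  toFun f := fun m => if (Nat.divModEquiv n m).2 = i then f (Nat.divModEquiv n m).1 else 0
  map_add' f g := by
    ext m
    simp only [Pi.add_apply]
    split_ifs <;> simp
  map_smul' r f := by
    ext m
    simp only [Pi.smul_apply, RingHom.id_apply]
    split_ifs <;> simp

/-- the coisometries -/
def Top (n : ℕ) [NeZero n] (i : Fin n) : A where
  toFun f := fun m => f ((Nat.divModEquiv n).symm (m, i))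
  map_add' f g := by ext m; rfl
  map_smul' r f := by ext m; rfl

lemma Top_mul_Sop (n : ℕ) [NeZero n] (i j : Fin n) :
    Top n i * Sop n j = if i = j then 1 else 0 := by
  apply LinearMap.ext
  intro f
  ext m
  show (if (Nat.divModEquiv n ((Nat.divModEquiv n).symm (m, i))).2 = j then
    f (Nat.divModEquiv n ((Nat.divModEquiv n).symm (m, i))).1 else 0) = _
  rw [Equiv.apply_symm_apply]
  split_ifs <;> rfl

lemma sum_Sop_mul_Top (n : ℕ) [NeZero n] : ∑ i, Sop n i * Top n i = 1 := by
  apply LinearMap.ext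
  intro f
  ext m
  rw [LinearMap.sum_apply, Finset.sum_apply, Finset.sum_eq_single (Nat.divModEquiv n m).2]
  · show (if (Nat.divModEquiv n m).2 = (Nat.divModEquiv n m).2 then
      f ((Nat.divModEquiv n).symm ((Nat.divModEquiv n m).1, (Nat.divModEquiv n m).2)) else 0) = _
    rw [if_pos rfl]
    show f ((Nat.divModEquiv n).symm (Nat.divModEquiv n m)) = f m
    rw [Equiv.symm_apply_apply]
  · intro i _ hi
    show (if (Nat.divModEquiv n m).2 = i then _ else (0 : ℚ)) = 0
    rw [if_neg (Ne.symm hi)]
  · intro h; exact absurd (Finset.mem_univ _) h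

open Pool.Agent.H20.Wild in
/-- **Main theorem.** -/
theorem result : ∃ (R : Type) (_ : Ring R),
    (¬ HighlyAcyclic R (AllPBC R) ∧ ¬ HighlyAcyclic R (OrbitPBC R)) ∧
    ∀ n, 2 ≤ n → ¬ HomologyVanishes (AllPBC R n) 1 ∧ ¬ HomologyVanishes (OrbitPBC R n) 1 := by
  have hli : LinearIndepOn ℚ (id : A → A) ({1} : Set A) := by
    apply LinearIndepOn.singleton
    exact one_ne_zero
  set b := Module.Basis.extend hli with hb
  set o : (hli.extend (Set.subset_univ _)) :=
    ⟨1, hli.subset_extend (Set.subset_univ _) (Set.mem_singleton _)⟩ with ho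
  have hbo : b o = 1 := by
    rw [hb, Module.Basis.extend_apply_self]
  have hI : ∃ i : (hli.extend (Set.subset_univ _)), i ≠ o := by
    by_contra h
    push Not at h
    have hscal : ∀ a : A, a = algebraMap ℚ A (b.repr a o) := fun a =>
      scalar_of_repr hbo a (fun i hi => absurd (h i) hi)
    have e1 := Top_mul_Sop 2 1 0
    have e2 := Top_mul_Sop 2 0 0
    rw [if_pos rfl] at e2
    rw [if_neg (by decide)] at e1
    have e3 := Top_mul_Sop 2 1 1
    rw [if_pos rfl] at e3
    rw [hscal (Sop 2 0)] at e1 e2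
    have hr : b.repr (Sop 2 0) o = 0 := by
      apply mul_algebraMap_eq_zero _ _ e1
      intro h0
      rw [h0, zero_mul] at e3
      exact zero_ne_one e3
    rw [hr, map_zero, mul_zero] at e2
    exact zero_ne_one e2
  -- the subring
  set RR := Pool.Agent.H20.Wild.R b o with hRR
  have hnt : Nontrivial RR := by
    refine ⟨⟨1, 0, ?_⟩⟩
    intro h
    have h2 := congrArg (fun x : RR =>
      (x : E A (hli.extend (Set.subset_univ _))) (cst 1)) h
    have h3 : (cst (1 : A) : W A (hli.extend (Set.subset_univ _))) = 0 := h2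
    have h4 : (cst (1 : A) : W A (hli.extend (Set.subset_univ _))).coeff 1 = 0 := by
      rw [h3]; rfl
    rw [cst_coeff_one] at h4
    exact one_ne_zero h4
  have key : ∀ n, 2 ≤ n → ∀ P' : ∀ q, PBC RR n q → Prop,
      (∀ (h : 1 ≤ n) g, P' 1 (vertex h g)) → ¬ HomologyVanishes P' 1 := by
    intro n hn P' hP'
    have : NeZero n := ⟨by omega⟩
    set T : Fin n → RR := fun i => ⟨Lop (Top n i), Lop_mem _⟩ with hT
    set S : Fin n → RR := fun i => ⟨Lop (Sop n i), Lop_mem _⟩ with hS
    have hTS : ∀ i j, T i * S j = if i = j then 1 else 0 := by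
      intro i j
      apply Subtype.ext
      show Lop (Top n i) * Lop (Sop n j) = _
      rw [← map_mul, Top_mul_Sop]
      split_ifs
      · exact map_one _
      · exact map_zero _
    have hST : ∑ i, S i * T i = 1 := by
      apply Subtype.ext
      rw [AddSubmonoidClass.coe_finsetSum]
      show ∑ i, Lop (Sop n i) * Lop (Top n i) = 1
      simp_rw [← map_mul]
      rw [← map_sum, sum_Sop_mul_Top, map_one]
    have hTne : ∀ i, Top n i ≠ 0 := by
      intro i h
      have := Top_mul_Sop n i i
      rw [h, zero_mul, if_pos rfl] at this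
      exact zero_ne_one this
    have hSne : ∀ i, Sop n i ≠ 0 := by
      intro i h
      have := Top_mul_Sop n i i
      rw [h, mul_zero, if_pos rfl] at this
      exact zero_ne_one this
    set z : RR := ⟨Z b o, Z_mem⟩ with hz
    have hzz : z * z = 0 := Subtype.ext (Z_mul_Z hbo)
    have huu' : (1 + z) * (1 - z) = 1 := by
      have : (1 + z) * (1 - z) = 1 - z * z := by noncomm_ring
      rw [this, hzz, sub_zero]
    have hu'u : (1 - z) * (1 + z) = 1 := by
      have : (1 - z) * (1 + z) = 1 - z * z := by noncomm_ring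
      rw [this, hzz, sub_zero]
    refine criterion hn T S hTS hST (fun p => BP b o (p : E A _)) (fun q => BQ b o (q : E A _))
      ?_ ?_ (1 + z) (1 - z) huu' hu'u ?_ ?_ ?_ P' (hP' _)
    · intro p q hp hq hpq
      exact BQ_of_BP hbo hI hp q.2 (fun h => hq (Subtype.ext h)) (congrArg Subtype.val hpq)
    · intro p q hq hp hpq
      exact BP_of_BQ hbo hI hq p.2 (fun h => hp (Subtype.ext h)) (congrArg Subtype.val hpq)
    · exact BP_mul hbo _ (hTne _)
    · exact BQ_mul _ (hSne _)
    · intro i
      exact not_BP_Lop hbo hI _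
  have hkey : ∀ n, 2 ≤ n →
      ¬ HomologyVanishes (AllPBC RR n) 1 ∧ ¬ HomologyVanishes (OrbitPBC RR n) 1 := fun n hn =>
    ⟨key n hn _ (fun _ _ => trivial), key n hn _ (fun h g => vertex_orbit h g)⟩
  have hnot : ∀ P : ∀ n q, PBC RR n q → Prop, (∀ n, 2 ≤ n → ¬ HomologyVanishes (P n) 1) →
      ¬ HighlyAcyclic RR P := by
    rintro P hP ⟨f, hf, H⟩
    obtain ⟨N, hN⟩ := Filter.eventually_atTop.mp (hf.eventually (Filter.eventually_ge_atTop 0))
    have h1 := hN (max N 2) (le_max_left _ _)
    exact hP (max N 2) (le_max_right _ _)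
      (H (max N 2) (by omega) 1 (by simpa using h1))
  exact ⟨RR, inferInstance, ⟨hnot _ (fun n hn => (hkey n hn).1), hnot _ (fun n hn => (hkey n hn).2)⟩,
    hkey⟩

end Pool.Agent.Results.MP_356f69_al.NotHighlyAcyclic
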