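import Mathlib
import Pool.Agent.H20.FrameFam
import Pool.Agent.Results.MP_356f69_al.NotHighlyAcyclic

/-!
# Vector coefficients against constant coefficients

For every ring `R` the complexes `R GL_n(R) ⊗_{R GL_{n-(p+1)}(R)} R^{n-(p+1)}` are highly acyclic
if and only if the complexes `ℤ GL_n(R) ⊗_{ℤ GL_{n-(p+1)}(R)} R` with constant coefficients in the
additive group of `R` are, and this holds if the complexes with constant coefficients `ℤ` are
highly acyclic.
-/

namespace Pool.Agent.Results.MP_356f69_al.CoefficientTransfer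

open Pool.Agent.Results.MP_356f69_al.NotHighlyAcyclic
open Pool.Agent.H20.ListCx Pool.Agent.H20.Frames Pool.Agent.H20.FrameFam

/-! ### Constant coefficients -/

/-- The boundary map of the complex with constant coefficients `G`:
`∂(σ, g) = ∑ᵢ (-1)^i (dᵢ σ, g)`. -/
noncomputable def constBdry (R : Type) [Ring R] (G : Type) [AddCommGroup G] (n q : ℕ) :
    (PBC R n (q + 1) →₀ G) →+ (PBC R n q →₀ G) :=
  ∑ i : Fin (q + 1), ((-1 : ℤ) ^ (i : ℕ)) • Finsupp.mapDomain.addMonoidHom (fun σ => σ.face i)

variable {R : Type} [Ring R] {n q : ℕ}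

/-- A formal sum with coefficients in `G` in which only `σ` of the class `P` occur. -/
def IsConstChain {G : Type} [AddCommGroup G] (P : ∀ q, PBC R n q → Prop)
    (x : PBC R n q →₀ G) : Prop :=
  ∀ σ, x σ ≠ 0 → P q σ

/-- Vanishing in degree `q - 1` of the homology of the augmented complex of partial bases with
complements of class `P`, with constant coefficients `G` (in degree `-1` the group is `G`). -/
def ConstHomologyVanishes (G : Type) [AddCommGroup G] (P : ∀ q, PBC R n q → Prop) : ℕ → Prop
  | 0 => ∀ x : PBC R n 0 →₀ G, IsConstChain P x →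
      ∃ y : PBC R n 1 →₀ G, IsConstChain P y ∧ constBdry R G n 0 y = x
  | q + 1 => ∀ x : PBC R n (q + 1) →₀ G, IsConstChain P x → constBdry R G n q x = 0 →
      ∃ y : PBC R n (q + 2) →₀ G, IsConstChain P y ∧ constBdry R G n (q + 1) y = x

/-- High acyclicity with constant coefficients `G`: there is `f` with `f(n) → ∞` such that for
every `n ≥ 1` the homology vanishes in all degrees `p = q - 1 ≤ f(n)`. -/
def ConstHighlyAcyclic (R : Type) [Ring R] (G : Type) [AddCommGroup G]
    (P : ∀ n q, PBC R n q → Prop) : Prop :=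
  ∃ f : ℕ → ℤ, Filter.Tendsto f Filter.atTop Filter.atTop ∧
    ∀ n, 1 ≤ n → ∀ q : ℕ, (q : ℤ) - 1 ≤ f n → ConstHomologyVanishes G (P n) q

/-! ### The functionals of a partial basis with complement -/

/-- the dual functionals -/
noncomputable def lam (σ : PBC R n q) (i : Fin q) : (Fin n → R) →ₗ[R] R :=
  ((Module.Basis.span σ.linearIndependent).coord i) ∘ₗ (Submodule.projectionOnto _ _ σ.isCompl)

open scoped Classical in
lemma lam_vec (σ : PBC R n q) (i j : Fin q) : lam σ i (σ.vec j) = if j = i then 1 else 0 := by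
  have h1 : σ.vec j = ((Module.Basis.span σ.linearIndependent j :
      Submodule.span R (Set.range σ.vec)) : Fin n → R) := by
    rw [Module.Basis.span_apply]
  unfold lam
  rw [LinearMap.comp_apply]
  conv_lhs => rw [h1]
  rw [Submodule.projectionOnto_apply_left, Module.Basis.coord_apply, Module.Basis.repr_self,
    Finsupp.single_apply]

lemma lam_compl (σ : PBC R n q) (i : Fin q) {w : Fin n → R} (hw : w ∈ σ.compl) :
    lam σ i w = 0 := by
  unfold lam
  rw [LinearMap.comp_apply, Submodule.projectionOnto_apply_eq_zero_iff _ |>.mpr hw, map_zero]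

lemma mem_compl (σ : PBC R n q) {w : Fin n → R} : w ∈ σ.compl ↔ ∀ i, lam σ i w = 0 := by
  refine ⟨fun h i => lam_compl σ i h, fun h => ?_⟩
  rw [← Submodule.projectionOnto_apply_eq_zero_iff σ.isCompl]
  apply (Module.Basis.span σ.linearIndependent).repr.injective
  rw [map_zero]
  apply Finsupp.ext
  intro i
  exact h i

open scoped Classical in
lemma lam_unique (σ : PBC R n q) (i : Fin q) (f : (Fin n → R) →ₗ[R] R)
    (h1 : ∀ j, f (σ.vec j) = if j = i then 1 else 0) (h2 : ∀ w ∈ σ.compl, f w = 0) :
    f = lam σ i := by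
  apply LinearMap.ext
  intro u
  have hu : u ∈ Submodule.span R (Set.range σ.vec) ⊔ σ.compl := by
    rw [σ.isCompl.sup_eq_top]; trivial
  obtain ⟨s, hs, c, hc, rfl⟩ := Submodule.mem_sup.mp hu
  rw [map_add, map_add, h2 c hc, lam_compl σ i hc]
  congr 1
  have : Set.EqOn f (lam σ i) (Submodule.span R (Set.range σ.vec)) := by
    apply LinearMap.eqOn_span
    rintro _ ⟨j, rfl⟩
    rw [h1, lam_vec]
  exact this hs

lemma lam_face (σ : PBC R n (q + 1)) (k : Fin (q + 1)) (j : Fin q) :
    lam (σ.face k) j = lam σ (k.succAbove j) := by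
  classical
  symm
  apply lam_unique
  · intro j'
    show lam σ (k.succAbove j) (σ.vec (k.succAbove j')) = _
    rw [lam_vec]
    congr 1
    simp
  · intro w hw
    obtain ⟨c, hc, y, hy, rfl⟩ := Submodule.mem_sup.mp hw
    obtain ⟨r, rfl⟩ := Submodule.mem_span_singleton.mp hy
    rw [map_add, lam_compl σ _ hc, map_smul, lam_vec, if_neg (Fin.succAbove_ne k j).symm,
      smul_zero, add_zero]

/-- the list of vectors and functionals -/
noncomputable def toL (σ : PBC R n q) : List (Vt R n) := List.ofFn (fun i => (σ.vec i, lam σ i))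

lemma toL_length (σ : PBC R n q) : (toL σ).length = q := by simp [toL]

lemma toL_getElem (σ : PBC R n q) (i : ℕ) (hi : i < (toL σ).length) :
    (toL σ)[i] = (σ.vec ⟨i, by rw [toL_length] at hi; exact hi⟩,
      lam σ ⟨i, by rw [toL_length] at hi; exact hi⟩) := by
  simp [toL]

lemma toL_face (σ : PBC R n (q + 1)) (k : Fin (q + 1)) :
    toL (σ.face k) = (toL σ).eraseIdx k := by
  apply List.ext_getElem
  · rw [List.length_eraseIdx, toL_length, toL_length, if_pos k.2]; rfl
  · intro i h1 h2
    rw [toL_getElem, List.getElem_eraseIdx]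
    have hi : i < q := by rw [toL_length] at h1; exact h1
    have hf : ∀ j : Fin q, ((σ.face k).vec j, lam (σ.face k) j) =
        (σ.vec (k.succAbove j), lam σ (k.succAbove j)) := by
      intro j; rw [lam_face]; rfl
    rw [hf]
    split_ifs with h3
    · rw [toL_getElem]
      have : k.succAbove ⟨i, hi⟩ = ⟨i, by omega⟩ := by
        rw [Fin.succAbove_of_castSucc_lt]
        · rfl
        · exact h3
      rw [this]
    · rw [toL_getElem]
      have : k.succAbove ⟨i, hi⟩ = ⟨i + 1, by omega⟩ := by
        rw [Fin.succAbove_of_le_castSucc]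
        · rfl
        · exact not_lt.mp h3
      rw [this]

lemma toL_injective : Function.Injective (toL : PBC R n q → List (Vt R n)) := by
  intro σ τ h
  have h1 := List.ofFn_injective h
  have hv : ∀ i, σ.vec i = τ.vec i := fun i => congrArg Prod.fst (congrFun h1 i)
  have hl : ∀ i, lam σ i = lam τ i := fun i => congrArg Prod.snd (congrFun h1 i)
  apply PBC.ext
  · funext i; exact hv i
  · ext w
    rw [mem_compl, mem_compl]
    simp_rw [hl]

/-! ### Partial bases with complements from automorphisms -/

/-- the standard complement -/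
def stdC (R : Type) [Ring R] (n q : ℕ) : Submodule R (Fin n → R) :=
  Submodule.span R {v | ∃ j : Fin n, q ≤ (j : ℕ) ∧ v = Pi.single j 1}

lemma sum_single (w : Fin n → R) : w = ∑ i, w i • (Pi.single i 1 : Fin n → R) := by
  ext j
  rw [Finset.sum_apply, Finset.sum_eq_single j]
  · simp
  · intro i _ hi; simp [hi.symm]
  · intro h; exact absurd (Finset.mem_univ _) h

lemma mem_stdC (w : Fin n → R) : w ∈ stdC R n q ↔ ∀ j : Fin n, (j : ℕ) < q → w j = 0 := by
  constructor
  · intro hw j hj
    have : stdC R n q ≤ LinearMap.ker (LinearMap.proj (R := R) (φ := fun _ : Fin n => R) j) := by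
      unfold stdC
      rw [Submodule.span_le]
      rintro _ ⟨i, hi, rfl⟩
      have : j ≠ i := by
        intro h; rw [h] at hj; omega
      simp [this]
    exact this hw
  · intro hw
    rw [sum_single w]
    apply Submodule.sum_mem
    intro i _
    by_cases hi : q ≤ (i : ℕ)
    · exact Submodule.smul_mem _ _ (Submodule.subset_span ⟨i, hi, rfl⟩)
    · rw [hw i (by omega), zero_smul]; exact Submodule.zero_mem _

lemma std_isCompl (hq : q ≤ n) : IsCompl (Submodule.span R (Set.range
    (fun i : Fin q => (Pi.single (Fin.castLE hq i) 1 : Fin n → R)))) (stdC R n q) := by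
  have h1 : ∀ w ∈ Submodule.span R (Set.range
      (fun i : Fin q => (Pi.single (Fin.castLE hq i) 1 : Fin n → R))),
      ∀ j : Fin n, q ≤ (j : ℕ) → w j = 0 := by
    intro w hw j hj
    have : Submodule.span R (Set.range
      (fun i : Fin q => (Pi.single (Fin.castLE hq i) 1 : Fin n → R))) ≤
        LinearMap.ker (LinearMap.proj (R := R) (φ := fun _ : Fin n => R) j) := by
      rw [Submodule.span_le]
      rintro _ ⟨i, rfl⟩
      have : j ≠ Fin.castLE hq i := by
        intro h
        have h2 := congrArg Fin.val h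
        have h3 := i.2
        simp at h2
        omega
      simp [this]
    exact this hw
  constructor
  · rw [Submodule.disjoint_def]
    intro w hw hw2
    ext j
    by_cases hj : q ≤ (j : ℕ)
    · exact h1 w hw j hj
    · exact (mem_stdC w).mp hw2 j (by omega)
  · rw [codisjoint_iff, eq_top_iff]
    intro w _
    rw [sum_single w]
    apply Submodule.sum_mem
    intro i _
    apply Submodule.smul_mem
    by_cases hi : q ≤ (i : ℕ)
    · exact Submodule.mem_sup_right (Submodule.subset_span ⟨i, hi, rfl⟩)
    · apply Submodule.mem_sup_left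
      apply Submodule.subset_span
      exact ⟨⟨i, by omega⟩, rfl⟩

/-- the partial basis with complement `g · (e₁, …, e_q, span(e_{q+1}, …, e_n))` -/
def ofEquiv (hq : q ≤ n) (g : (Fin n → R) ≃ₗ[R] (Fin n → R)) : PBC R n q where
  vec i := g (Pi.single (Fin.castLE hq i) 1)
  compl := (stdC R n q).map (g : (Fin n → R) →ₗ[R] (Fin n → R))
  size_le := hq
  linearIndependent := by
    have h1 := (Pi.basisFun R (Fin n)).linearIndependent.comp (Fin.castLE hq)
      (Fin.castLE_injective hq)
    have h2 := h1.map' (g : (Fin n → R) →ₗ[R] (Fin n → R)) (LinearEquiv.ker g)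
    have e : (fun i : Fin q => g (Pi.single (Fin.castLE hq i) 1 : Fin n → R)) =
        (g : (Fin n → R) →ₗ[R] (Fin n → R)) ∘ (Pi.basisFun R (Fin n)) ∘ Fin.castLE hq := by
      funext i
      simp
    rw [e]
    exact h2
  isCompl := by
    have h1 := (Submodule.orderIsoMapComap g).isCompl (std_isCompl (R := R) hq)
    have h2 : Submodule.span R (Set.range
        (fun i : Fin q => g (Pi.single (Fin.castLE hq i) 1 : Fin n → R))) =
        (Submodule.span R (Set.range
          (fun i : Fin q => (Pi.single (Fin.castLE hq i) 1 : Fin n → R)))).map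
            (g : (Fin n → R) →ₗ[R] (Fin n → R)) := by
      rw [Submodule.map_span, ← Set.range_comp]
      rfl
    rw [h2]
    exact h1

lemma ofEquiv_orbit (hq : q ≤ n) (g : (Fin n → R) ≃ₗ[R] (Fin n → R)) :
    OrbitPBC R n q (ofEquiv hq g) := ⟨g, fun _ => rfl, rfl⟩

lemma lam_ofEquiv (hq : q ≤ n) (g : (Fin n → R) ≃ₗ[R] (Fin n → R)) (i : Fin q) (u : Fin n → R) :
    lam (ofEquiv hq g) i u = g.symm u (Fin.castLE hq i) := by
  classical
  have : (LinearMap.proj (R := R) (φ := fun _ : Fin n => R) (Fin.castLE hq i)) ∘ₗ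
      (g.symm : (Fin n → R) →ₗ[R] (Fin n → R)) = lam (ofEquiv hq g) i := by
    apply lam_unique
    · intro j
      show g.symm (g (Pi.single (Fin.castLE hq j) 1)) (Fin.castLE hq i) = _
      rw [LinearEquiv.symm_apply_apply, Pi.single_apply]
      congr 1
      rw [eq_iff_iff, Fin.castLE_inj]
      exact eq_comm
    · rintro _ ⟨c, hc, rfl⟩
      show g.symm (g c) (Fin.castLE hq i) = 0
      rw [LinearEquiv.symm_apply_apply]
      exact (mem_stdC c).mp hc _ (by simp)
  rw [← this]; rfl

/-! ### The dictionary -/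

/-- padding with zeros on the left -/
def padL (R : Type) [Ring R] (q m : ℕ) : (Fin m → R) →ₗ[R] (Fin (q + m) → R) where
  toFun w := Fin.append (fun _ : Fin q => (0 : R)) w
  map_add' a b := by
    ext j
    refine Fin.addCases (fun j => ?_) (fun j => ?_) j
    · simp
    · simp
  map_smul' r a := by
    ext j
    refine Fin.addCases (fun j => ?_) (fun j => ?_) j
    · simp
    · simp

lemma padL_apply (m : ℕ) (w : Fin m → R) :
    padL R q m w = Fin.append (fun _ : Fin q => (0 : R)) w := rfl

lemma padL_mem (m : ℕ) (w : Fin m → R) : padL R q m w ∈ stdC R (q + m) q := by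
  rw [mem_stdC]
  intro j hj
  rw [padL_apply]
  have : j = Fin.castAdd m ⟨j, hj⟩ := by ext; rfl
  rw [this, Fin.append_left]

lemma tot_toL_vec (σ : PBC R n q) (j : Fin q) : tot (toL σ) (σ.vec j) = σ.vec j := by
  classical
  have h : tot (toL σ) = ∑ i, (lam σ i).smulRight (σ.vec i) := by
    have : ∀ (l : List (Vt R n)), tot l = (l.map (fun x => x.2.smulRight x.1)).sum := by
      intro l
      induction l with
      | nil => rfl
      | cons x l ih => rw [tot, ih]; rfl
    rw [this, toL, List.map_ofFn, List.sum_ofFn]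
    rfl
  rw [h, LinearMap.sum_apply, Finset.sum_eq_single j]
  · rw [LinearMap.smulRight_apply, lam_vec, if_pos rfl, one_smul]
  · intro i _ hi
    rw [LinearMap.smulRight_apply, lam_vec, if_neg hi.symm, zero_smul]
  · intro h; exact absurd (Finset.mem_univ _) h

lemma mem_toL {σ : PBC R n q} {x : Vt R n} (hx : x ∈ toL σ) :
    ∃ i : Fin q, x = (σ.vec i, lam σ i) := by
  obtain ⟨i, rfl⟩ := (List.mem_ofFn' _ _).mp hx
  exact ⟨i, rfl⟩

lemma toL_mem_Fr (σ : PBC R n q) (h : OrbitPBC R n q σ) : toL σ ∈ Fr R n := by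
  classical
  obtain ⟨g, hg1, hg2⟩ := h
  obtain ⟨m, rfl⟩ := Nat.exists_eq_add_of_le σ.size_le
  have hcast : ∀ i : Fin q, Fin.castLE σ.size_le i = Fin.castAdd m i := fun i => rfl
  have hmem : ∀ w, g (padL R q m w) ∈ σ.compl := by
    intro w
    rw [← hg2]
    exact Submodule.mem_map_of_mem (padL_mem m w)
  refine ⟨?_, ?_, m, by rw [toL_length], (g : (Fin (q + m) → R) →ₗ[R] _) ∘ₗ padL R q m,
    (LinearMap.funLeft R R (Fin.natAdd q)) ∘ₗ (g.symm : (Fin (q + m) → R) →ₗ[R] _), ?_, ?_, ?_, ?_⟩
  · intro x hx
    obtain ⟨i, rfl⟩ := mem_toL hx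
    show lam σ i (σ.vec i) = 1
    rw [lam_vec, if_pos rfl]
  · unfold toL
    rw [List.pairwise_ofFn]
    intro i j hij
    show lam σ i (σ.vec j) = 0 ∧ lam σ j (σ.vec i) = 0
    rw [lam_vec, lam_vec, if_neg hij.ne', if_neg hij.ne]
    exact ⟨rfl, rfl⟩
  · intro w
    funext j
    show g.symm (g (padL R q m w)) (Fin.natAdd q j) = w j
    rw [LinearEquiv.symm_apply_apply, padL_apply, Fin.append_right]
  · intro x hx w
    obtain ⟨i, rfl⟩ := mem_toL hx
    exact lam_compl σ i (hmem w)
  · intro x hx
    obtain ⟨i, rfl⟩ := mem_toL hx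
    funext j
    show g.symm (σ.vec i) (Fin.natAdd q j) = 0
    rw [← hg1, LinearEquiv.symm_apply_apply, hcast, Pi.single_apply, if_neg]
    intro h
    have := congrArg Fin.val h
    have h2 := i.2
    simp at this
    omega
  · have key : ((g : (Fin (q + m) → R) →ₗ[R] _) ∘ₗ padL R q m) ∘ₗ
        ((LinearMap.funLeft R R (Fin.natAdd q)) ∘ₗ (g.symm : (Fin (q + m) → R) →ₗ[R] _)) +
        tot (toL σ) = LinearMap.id := by
      have hu : ∀ u : Fin (q + m) → R, u ∈ Submodule.span R (Set.range σ.vec) ⊔ σ.compl := by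
        intro u
        rw [σ.isCompl.sup_eq_top]; trivial
      apply LinearMap.ext
      intro u
      obtain ⟨s, hs, c, hc, rfl⟩ := Submodule.mem_sup.mp (hu u)
      rw [map_add, map_add]
      congr 1
      · have : Set.EqOn (((g : (Fin (q + m) → R) →ₗ[R] (Fin (q + m) → R)) ∘ₗ padL R q m) ∘ₗ
            ((LinearMap.funLeft R R (Fin.natAdd q)) ∘ₗ
              (g.symm : (Fin (q + m) → R) →ₗ[R] (Fin (q + m) → R))) + tot (toL σ))
              (LinearMap.id : (Fin (q + m) → R) →ₗ[R] (Fin (q + m) → R))
              ((Submodule.span R (Set.range σ.vec) : Submodule R (Fin (q + m) → R)) :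
                Set (Fin (q + m) → R)) := by
          apply LinearMap.eqOn_span
          rintro _ ⟨i, rfl⟩
          rw [LinearMap.add_apply, tot_toL_vec, LinearMap.id_apply]
          have : ((LinearMap.funLeft R R (Fin.natAdd q)) ∘ₗ
              (g.symm : (Fin (q + m) → R) →ₗ[R] _)) (σ.vec i) = (0 : Fin m → R) := by
            funext j
            show g.symm (σ.vec i) (Fin.natAdd q j) = 0
            rw [← hg1, LinearEquiv.symm_apply_apply, hcast, Pi.single_apply, if_neg]
            intro h
            have := congrArg Fin.val h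
            have h2 := i.2
            simp at this
            omega
          rw [LinearMap.comp_apply, this, map_zero, zero_add]
        exact this hs
      · rw [LinearMap.add_apply, tot_eq_zero (toL σ) c (by
          intro x hx
          obtain ⟨i, rfl⟩ := mem_toL hx
          exact lam_compl σ i hc), add_zero, LinearMap.id_apply]
        rw [← hg2] at hc
        obtain ⟨d, hd, rfl⟩ := hc
        show g (padL R q m (fun j => g.symm (g d) (Fin.natAdd q j))) = g d
        rw [LinearEquiv.symm_apply_apply]
        congr 1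
        funext j
        refine Fin.addCases (fun j => ?_) (fun j => ?_) j
        · rw [padL_apply, Fin.append_left]
          exact ((mem_stdC d).mp hd _ j.2).symm
        · rw [padL_apply, Fin.append_right]
    intro u
    exact LinearMap.congr_fun key u

lemma tot_ofFn {n q : ℕ} (L : Fin q → Vt R n) (u : Fin n → R) :
    tot (List.ofFn L) u = ∑ a, (L a).2 u • (L a).1 := by
  induction q with
  | zero => simp [tot]
  | succ q ih =>
    rw [List.ofFn_succ, tot, LinearMap.add_apply, ih, Fin.sum_univ_succ]
    rfl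

lemma exists_of_mem_Fr (l : List (Vt R n)) (hl : l ∈ Fr R n) (q : ℕ) (hq : l.length = q) :
    ∃ σ : PBC R n q, OrbitPBC R n q σ ∧ toL σ = l := by
  classical
  obtain ⟨h1, h2, m, hm, i, p, hD⟩ := hl
  rw [hq] at hm
  subst hm
  obtain ⟨L, rfl⟩ : ∃ L : Fin q → Vt R (q + m), l = List.ofFn L := by
    refine ⟨fun a => l.get (Fin.cast hq.symm a), ?_⟩
    apply List.ext_getElem
    · simp [hq]
    · intro a ha hb
      simp
  clear hq
  have hmemL : ∀ a, L a ∈ List.ofFn L := fun a => (List.mem_ofFn' _ _).mpr ⟨a, rfl⟩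
  have hbi : ∀ a b : Fin q, (L a).2 (L b).1 = if b = a then 1 else 0 := by
    intro a b
    split_ifs with h
    · subst h; exact h1 _ (hmemL _)
    · rw [List.pairwise_ofFn] at h2
      rcases lt_or_gt_of_ne h with h3 | h3
      · exact (h2 h3).2
      · exact (h2 h3).1
  set g : (Fin (q + m) → R) ≃ₗ[R] (Fin (q + m) → R) :=
    { toFun := fun w => (∑ a : Fin q, w (Fin.castAdd m a) • (L a).1) +
        i (fun j => w (Fin.natAdd q j))
      map_add' := by
        intro a b
        have : (fun j => (a + b) (Fin.natAdd q j)) =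
          (fun j => a (Fin.natAdd q j)) + (fun j => b (Fin.natAdd q j)) := rfl
        rw [this, map_add]
        simp only [Pi.add_apply, add_smul, Finset.sum_add_distrib]
        abel
      map_smul' := by
        intro r a
        have : (fun j => (r • a) (Fin.natAdd q j)) =
          r • (fun j => a (Fin.natAdd q j)) := rfl
        rw [this, map_smul]
        simp only [Pi.smul_apply, smul_eq_mul, mul_smul, RingHom.id_apply, smul_add,
          Finset.smul_sum]
      invFun := fun u => Fin.append (fun a => (L a).2 u) (p u)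
      left_inv := by
        intro w
        show Fin.append (fun a => (L a).2 ((∑ a : Fin q,
          w (Fin.castAdd m a) • (L a).1) + i (fun j => w (Fin.natAdd q j))))
          (p ((∑ a : Fin q,
          w (Fin.castAdd m a) • (L a).1) + i (fun j => w (Fin.natAdd q j)))) = w
        funext j
        refine Fin.addCases (fun j => ?_) (fun j => ?_) j
        · rw [Fin.append_left, map_add, hD.lam _ (hmemL _), add_zero, map_sum,
            Finset.sum_eq_single j]
          · rw [map_smul, hbi, if_pos rfl, smul_eq_mul, mul_one]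
          · intro b _ hb
            rw [map_smul, hbi, if_neg hb, smul_zero]
          · intro h; exact absurd (Finset.mem_univ _) h
        · rw [Fin.append_right, map_add, hD.pi, map_sum, Finset.sum_eq_zero]
          · rw [zero_add]
          · intro a _
            rw [map_smul, hD.pv _ (hmemL _), smul_zero]
      right_inv := by
        intro u
        show (∑ a : Fin q, Fin.append (fun a => (L a).2 u) (p u) (Fin.castAdd m a) •
          (L a).1) + i (fun j => Fin.append (fun a => (L a).2 u) (p u)
            (Fin.natAdd q j)) = u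
        simp only [Fin.append_left, Fin.append_right]
        have e := hD.sum u
        rw [tot_ofFn] at e
        exact (add_comm (∑ a : Fin q, (L a).2 u • (L a).1) (i (p u))).trans e } with hg
  have hle : q ≤ q + m := by omega
  refine ⟨ofEquiv hle g, ofEquiv_orbit hle g, ?_⟩
  have hgs : ∀ u, g.symm u = Fin.append (fun a => (L a).2 u) (p u) := fun u => rfl
  unfold toL
  congr 1
  funext a
  have hcast : Fin.castLE hle a = Fin.castAdd m a := rfl
  apply Prod.ext
  · show g (Pi.single (Fin.castLE hle a) 1) = (L a).1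
    rw [hcast]
    show (∑ b : Fin q, (Pi.single (Fin.castAdd m a) (1 : R) :
      Fin (q + m) → R) (Fin.castAdd m b) • (L b).1) +
      i (fun j => (Pi.single (Fin.castAdd m a) (1 : R) :
      Fin (q + m) → R) (Fin.natAdd q j)) = (L a).1
    have e1 : (fun j => (Pi.single (Fin.castAdd m a) (1 : R) :
      Fin (q + m) → R) (Fin.natAdd q j)) = 0 := by
      funext j
      rw [Pi.single_apply, if_neg]
      · rfl
      · intro h
        have := congrArg Fin.val h
        have h2 := a.2
        simp at this
        omega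
    rw [e1, map_zero, add_zero, Finset.sum_eq_single a]
    · rw [Pi.single_eq_same, one_smul]
    · intro b _ hb'
      rw [Pi.single_apply, if_neg, zero_smul]
      intro h
      exact hb' (Fin.castAdd_injective _ _ h)
    · intro h; exact absurd (Finset.mem_univ _) h
  · apply LinearMap.ext
    intro u
    show lam (ofEquiv hle g) a u = (L a).2 u
    rw [lam_ofEquiv, hgs, hcast, Fin.append_left]

/-! ### Chains -/

section chains

variable {M : Type} [AddCommGroup M]

/-- the map on chains -/
noncomputable def T (R : Type) [Ring R] (n q : ℕ) (M : Type) [AddCommGroup M] :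
    (PBC R n q →₀ M) →+ (List (Vt R n) →₀ M) :=
  Finsupp.mapDomain.addMonoidHom toL

lemma T_injective : Function.Injective (T R n q M) := Finsupp.mapDomain_injective toL_injective

lemma T_single (σ : PBC R n q) (w : M) : T R n q M (Finsupp.single σ w) =
    Finsupp.single (toL σ) w := Finsupp.mapDomain_single

lemma T_apply (x : PBC R n q →₀ M) (σ : PBC R n q) : T R n q M x (toL σ) = x σ :=
  Finsupp.mapDomain_apply toL_injective _ _

lemma T_apply_ne (x : PBC R n q →₀ M) (l : List (Vt R n)) (h : T R n q M x l ≠ 0) :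
    ∃ σ, l = toL σ ∧ x σ ≠ 0 := by
  by_cases h1 : ∃ σ : PBC R n q, toL σ = l
  · obtain ⟨σ, rfl⟩ := h1
    rw [T_apply] at h
    exact ⟨σ, rfl, h⟩
  · exfalso
    apply h
    apply Finsupp.mapDomain_of_notMem_range
    rintro ⟨σ, h2⟩
    exact h1 ⟨σ, h2⟩

lemma bd_single_sum {V : Type} (l : List V) (w : M) : bd V M (Finsupp.single l w) =
    ∑ i ∈ Finset.range l.length, ((-1 : ℤ) ^ i) • Finsupp.single (l.eraseIdx i) w := by
  induction l with
  | nil => rw [bd_single_nil]; rfl
  | cons x l ih =>
    rw [bd_single_cons, ih, List.length_cons, Finset.sum_range_succ']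
    simp only [pow_zero, one_smul, List.eraseIdx_zero, List.tail_cons, List.eraseIdx_cons_succ]
    rw [map_sum, sub_eq_add_neg, add_comm, ← Finset.sum_neg_distrib]
    congr 1
    apply Finset.sum_congr rfl
    intro i _
    rw [map_zsmul, consC_single, pow_succ, mul_neg_one, neg_smul]

lemma T_bdry (x : PBC R n (q + 1) →₀ M) :
    T R n q M (constBdry R M n q x) = bd (Vt R n) M (T R n (q + 1) M x) := by
  induction x using Finsupp.induction_linear with
  | zero => simp
  | add a b ha hb => simp only [map_add, ha, hb]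
  | single σ w =>
    rw [T_single, bd_single_sum, toL_length, Finset.sum_range]
    unfold constBdry
    rw [AddMonoidHom.finsetSum_apply, map_sum]
    apply Finset.sum_congr rfl
    intro i _
    rw [AddMonoidHom.smul_apply, map_zsmul, ← toL_face, ← T_single]
    congr 2
    exact Finsupp.mapDomain_single

lemma supp_T {x : PBC R n q →₀ M} (hx : IsConstChain (OrbitPBC R n) x) :
    Supp (Fr R n) q (T R n q M x) := by
  intro l hl
  obtain ⟨σ, rfl, h⟩ := T_apply_ne x l hl
  exact ⟨toL_mem_Fr σ (hx σ h), toL_length σ⟩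

lemma exists_T {c : List (Vt R n) →₀ M} (hc : Supp (Fr R n) q c) :
    ∃ x, IsConstChain (OrbitPBC R n) x ∧ T R n q M x = c := by
  refine ⟨Finsupp.comapDomain toL c toL_injective.injOn, ?_, ?_⟩
  · intro σ hσ
    have h1 : c (toL σ) ≠ 0 := hσ
    obtain ⟨τ, hτ, h2⟩ := exists_of_mem_Fr _ (hc _ h1).1 q (hc _ h1).2
    rw [← toL_injective h2]; exact hτ
  · apply Finsupp.mapDomain_comapDomain _ toL_injective
    intro l hl
    obtain ⟨h1, h2⟩ := hc l (Finsupp.mem_support_iff.mp hl)
    obtain ⟨τ, -, h3⟩ := exists_of_mem_Fr l h1 q h2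
    exact ⟨τ, h3⟩

end chains

theorem constHomologyVanishes_iff (G : Type) [AddCommGroup G] (n q : ℕ) :
    ConstHomologyVanishes G (OrbitPBC R n) q ↔ Acyc (Fr R n) G q := by
  cases q with
  | zero =>
    constructor
    · intro h c hc _
      obtain ⟨x, hx, rfl⟩ := exists_T hc
      obtain ⟨y, hy1, hy2⟩ := h x hx
      exact ⟨T R n 1 G y, supp_T hy1, by rw [← T_bdry, hy2]⟩
    · intro h x hx
      have h0 : bd (Vt R n) G (T R n 0 G x) = 0 := by
        have : T R n 0 G x = Finsupp.single [] (T R n 0 G x []) := by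
          ext l
          by_cases hl : l = []
          · subst hl; simp
          · have : T R n 0 G x l = 0 := by
              by_contra h1
              exact hl (List.length_eq_zero_iff.mp (supp_T hx l h1).2)
            rw [this, Finsupp.single_eq_of_ne hl]
        rw [this, bd_single_nil]
      obtain ⟨c, hc1, hc2⟩ := h _ (supp_T hx) h0
      obtain ⟨y, hy, rfl⟩ := exists_T hc1
      exact ⟨y, hy, T_injective (by rw [T_bdry, hc2])⟩
  | succ q =>
    constructor
    · intro h c hc hb
      obtain ⟨x, hx, rfl⟩ := exists_T hc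
      obtain ⟨y, hy1, hy2⟩ := h x hx (T_injective (by rw [T_bdry, hb, map_zero]))
      exact ⟨T R n (q + 2) G y, supp_T hy1, by rw [← T_bdry, hy2]⟩
    · intro h x hx hb
      obtain ⟨c, hc1, hc2⟩ := h _ (supp_T hx) (by rw [← T_bdry, hb, map_zero])
      obtain ⟨y, hy, rfl⟩ := exists_T hc1
      exact ⟨y, hy, T_injective (by rw [T_bdry, hc2])⟩

lemma bdry_eq (n q : ℕ) : bdry R n q = constBdry R (Fin n → R) n q := rfl

lemma isChain_iff (x : PBC R n q →₀ (Fin n → R)) : IsChain (OrbitPBC R n) x ↔
    IsConstChain (OrbitPBC R n) x ∧ rho (ev R n) (T R n q _ x) = 0 := by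
  constructor
  · intro h
    refine ⟨fun σ => (h σ).2, ?_⟩
    ext ⟨l, a⟩ m : 2
    rw [rho_apply]
    by_cases h1 : T R n q _ x (l ++ a :: m) = 0
    · rw [h1, map_zero]; rfl
    · obtain ⟨σ, h2, -⟩ := T_apply_ne x _ h1
      have ha : a ∈ toL σ := by rw [← h2]; simp
      obtain ⟨i, rfl⟩ := mem_toL ha
      rw [h2, T_apply]
      exact lam_compl σ i (h σ).1
  · rintro ⟨h1, h2⟩ σ
    refine ⟨?_, h1 σ⟩
    rw [mem_compl]
    intro i
    have h3 : (σ.vec i, lam σ i) ∈ toL σ := by
      rw [toL, List.mem_ofFn']
      exact ⟨i, rfl⟩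
    obtain ⟨l, m, h4⟩ := List.append_of_mem h3
    have h5 := rho_apply (ev R n) (T R n q _ x) l (σ.vec i, lam σ i) m
    rw [h2, ← h4, T_apply] at h5
    exact h5.symm

theorem homologyVanishes_iff (n q : ℕ) :
    HomologyVanishes (OrbitPBC R n) q ↔ VAcyc (Fr R n) (ev R n) q := by
  have hex : ∀ q, ∀ c : List (Vt R n) →₀ (Fin n → R), Supp (Fr R n) q c → rho (ev R n) c = 0 →
      ∃ x, IsChain (OrbitPBC R n) x ∧ T R n q _ x = c := by
    intro q c hc hr
    obtain ⟨x, hx, rfl⟩ := exists_T hc
    exact ⟨x, (isChain_iff x).mpr ⟨hx, hr⟩, rfl⟩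
  cases q with
  | zero =>
    constructor
    · intro h c hc hr _
      obtain ⟨x, hx, rfl⟩ := hex 0 c hc hr
      obtain ⟨y, hy1, hy2⟩ := h x hx
      rw [isChain_iff] at hy1
      exact ⟨T R n 1 _ y, supp_T hy1.1, hy1.2, by rw [← T_bdry, ← bdry_eq, hy2]⟩
    · intro h x hx
      rw [isChain_iff] at hx
      have h0 : bd (Vt R n) (Fin n → R) (T R n 0 _ x) = 0 := by
        have : T R n 0 _ x = Finsupp.single [] (T R n 0 _ x []) := by
          ext1 l
          by_cases hl : l = []
          · subst hl; simp
          · have : T R n 0 _ x l = 0 := by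
              by_contra h1
              exact hl (List.length_eq_zero_iff.mp (supp_T hx.1 l h1).2)
            rw [this, Finsupp.single_eq_of_ne hl]
        rw [this, bd_single_nil]
      obtain ⟨c, hc1, hc2, hc3⟩ := h _ (supp_T hx.1) hx.2 h0
      obtain ⟨y, hy, rfl⟩ := hex 1 c hc1 hc2
      exact ⟨y, hy, T_injective (by rw [bdry_eq, T_bdry, hc3])⟩
  | succ q =>
    constructor
    · intro h c hc hr hb
      obtain ⟨x, hx, rfl⟩ := hex (q + 1) c hc hr
      obtain ⟨y, hy1, hy2⟩ := h x hx (T_injective (by rw [bdry_eq, T_bdry, hb, map_zero]))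
      rw [isChain_iff] at hy1
      exact ⟨T R n (q + 2) _ y, supp_T hy1.1, hy1.2, by rw [← T_bdry, ← bdry_eq, hy2]⟩
    · intro h x hx hb
      rw [isChain_iff] at hx
      obtain ⟨c, hc1, hc2, hc3⟩ := h _ (supp_T hx.1) hx.2 (by
        rw [← T_bdry, ← bdry_eq, hb, map_zero])
      obtain ⟨y, hy, rfl⟩ := hex (q + 2) c hc1 hc2
      exact ⟨y, hy, T_injective (by rw [bdry_eq, T_bdry, hc3])⟩

/-! ### High acyclicity as an eventual statement -/

lemma high_iff_ev (P : ℕ → ℕ → Prop) :
    (∃ f : ℕ → ℤ, Filter.Tendsto f Filter.atTop Filter.atTop ∧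
      ∀ n, 1 ≤ n → ∀ q : ℕ, (q : ℤ) - 1 ≤ f n → P n q) ↔ Ev P := by
  classical
  constructor
  · rintro ⟨f, hf, h⟩ q
    obtain ⟨N, hN⟩ := Filter.eventually_atTop.mp (hf.eventually (Filter.eventually_ge_atTop (q : ℤ)))
    refine ⟨max N 1, fun n hn => h n (le_trans (le_max_right _ _) hn) q ?_⟩
    have := hN n (le_trans (le_max_left _ _) hn)
    omega
  · intro h
    choose N hN using h
    refine ⟨fun n => (Nat.findGreatest (fun k => ∀ q < k, P n q) n : ℤ) - 2, ?_, ?_⟩
    · rw [Filter.tendsto_atTop]
      intro b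
      rw [Filter.eventually_atTop]
      set K := (b + 2).toNat with hK
      refine ⟨K + ∑ k ∈ Finset.range K, N k, fun n hn => ?_⟩
      have h1 : K ≤ Nat.findGreatest (fun k => ∀ q < k, P n q) n := by
        apply Nat.le_findGreatest (by omega)
        intro q hq
        apply hN
        have := Finset.single_le_sum (f := fun k => N k) (fun _ _ => Nat.zero_le _)
          (Finset.mem_range.mpr hq)
        omega
      have h2 : b + 2 ≤ (K : ℤ) := Int.self_le_toNat _
      have h3 : (K : ℤ) ≤ (Nat.findGreatest (fun k => ∀ q < k, P n q) n : ℤ) := by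
        exact_mod_cast h1
      show b ≤ (Nat.findGreatest (fun k => ∀ q < k, P n q) n : ℤ) - 2
      omega
    · intro n _ q hq
      have h1 := Nat.findGreatest_spec (P := fun k => ∀ q < k, P n q) (Nat.zero_le n)
        (by intro q hq; exact absurd hq (by omega))
      apply h1
      have hq' : (q : ℤ) - 1 ≤ (Nat.findGreatest (fun k => ∀ q < k, P n q) n : ℤ) - 2 := hq
      omega

/-- **Main theorem.** For every ring `R`, the complexes with the vector coefficients are highly
acyclic if and only if the complexes with constant coefficients in the additive group of `R` are;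
and they are highly acyclic if the complexes with constant coefficients `ℤ` are. -/
theorem result (R : Type) [Ring R] :
    (HighlyAcyclic R (OrbitPBC R) ↔ ConstHighlyAcyclic R R (OrbitPBC R)) ∧
    (ConstHighlyAcyclic R ℤ (OrbitPBC R) → HighlyAcyclic R (OrbitPBC R)) := by
  have h1 : HighlyAcyclic R (OrbitPBC R) ↔ Ev (fun n q => VAcyc (Fr R n) (ev R n) q) := by
    unfold HighlyAcyclic
    rw [high_iff_ev (fun n q => HomologyVanishes (OrbitPBC R n) q)]
    simp_rw [homologyVanishes_iff]
  have h2 : ∀ (G : Type) [AddCommGroup G], ConstHighlyAcyclic R G (OrbitPBC R) ↔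
      Ev (fun n q => Acyc (Fr R n) G q) := by
    intro G _
    unfold ConstHighlyAcyclic
    rw [high_iff_ev (fun n q => ConstHomologyVanishes G (OrbitPBC R n) q)]
    simp_rw [constHomologyVanishes_iff]
  rw [h1, h2 R, h2 ℤ]
  exact ⟨⟨ev_acyc_of_vacyc, ev_vacyc_of_acyc⟩,
    fun h => ev_vacyc_of_acyc (ev_acyc_of_int h)⟩

end Pool.Agent.Results.MP_356f69_al.CoefficientTransfer
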